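import Mathlib
import Pool.Agent.Lib.MP_06d84d_lc.Main

set_option autoImplicit false

namespace Pool.Agent.Results.MP_06d84d_lc.TransitivePerfect

/-- Every nonsmooth countable Borel equivalence relation on a standard Borel space is Borel
isomorphic to the orbit equivalence relation of a continuous action of a countable group on a
perfect Polish space with a dense orbit. -/
theorem result :
    ∀ (X : Type) [MeasurableSpace X] [StandardBorelSpace X] (E : X → X → Prop),
      Equivalence E →
      MeasurableSet {p : X × X | E p.1 p.2} →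
      (∀ x : X, {y : X | E x y}.Countable) →
      (¬ ∃ f : X → ℝ, Measurable f ∧ ∀ x y : X, E x y ↔ f x = f y) →
      ∃ (Γ : Type) (_ : Group Γ) (_ : Countable Γ)
        (Y : Type) (_ : TopologicalSpace Y) (_ : PolishSpace Y) (_ : PerfectSpace Y)
        (_ : MulAction Γ Y) (_ : ContinuousConstSMul Γ Y)
        (_ : MeasurableSpace Y) (_ : BorelSpace Y) (f : X ≃ᵐ Y),
        (∀ x y : X, E x y ↔ ∃ g : Γ, g • f x = f y) ∧
          ∃ y : Y, Dense (MulAction.orbit Γ y) :=
  fun X _ _ E hE hm hc hns => Pool.Agent.Lib.MP_06d84d_lc.main_thm X E hE hm hc hns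

end Pool.Agent.Results.MP_06d84d_lc.TransitivePerfect
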